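import Pool.Agent.Helper4.MCP.GoalsB

/-!
Packet MCP-PAT (MP_d8224a_co): properties of `own` and `pat`.
-/

set_option autoImplicit false

namespace Pool.Agent.Helper55.MCP

open Pool.Agent.Helper4.MCP Pool.Agent.Helper26.MCE Pool.Agent.Helper87.MC Finset

section

variable {G : Type} [AddCommGroup G] [Fintype G] {Λ : Type} [Fintype Λ] {M s : ℕ}
  (W : Λ → AddSubgroup G) (ω : Fin M → G) (B : Finset Λ) (p : G × Finset (Fin M)) (a : Fin s → Λ)

open Classical in
lemma mem_own (v : Fin M) (l : Λ) : l ∈ own W ω B p v ↔ l ∈ B ∧ v ∈ p.2 ∧ p.1 - ω v ∈ W l ∧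
    ∀ v' ∈ p.2, v' < v → p.1 - ω v' ∉ W l := by
  unfold own
  rw [mem_filter]

lemma own_unique {v v' : Fin M} {l : Λ} (h : l ∈ own W ω B p v) (h' : l ∈ own W ω B p v') :
    v = v' := by
  rw [mem_own] at h h'
  rcases lt_trichotomy v v' with hlt | heq | hlt
  · exact absurd h.2.2.1 (h'.2.2.2 v h.2.1 hlt)
  · exact heq
  · exact absurd h'.2.2.1 (h.2.2.2 v' h'.2.1 hlt)

open Classical in
/-- the sample points assigned to `v` -/
noncomputable def Tv (v : Fin M) : Finset (Fin s) := univ.filter fun i => a i ∈ own W ω B p v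

open Classical in
lemma mem_Tv (v : Fin M) (i : Fin s) : i ∈ Tv W ω B p a v ↔ a i ∈ own W ω B p v := by
  unfold Tv
  simp

open Classical in
lemma pat_eq_min {i : Fin s} {v : Fin M} (h : a i ∈ own W ω B p v)
    (hne : (Tv W ω B p a v).Nonempty) :
    pat W ω B p a i = some ((Tv W ω B p a v).min' hne) := by
  have hS : (univ.filter fun i' => ∃ v, a i ∈ own W ω B p v ∧ a i' ∈ own W ω B p v) =
      Tv W ω B p a v := by
    ext i'
    rw [mem_filter, mem_Tv]
    constructor
    · rintro ⟨_, v', h1, h2⟩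
      rw [own_unique W ω B p h h1]
      exact h2
    · intro h2
      exact ⟨mem_univ _, v, h, h2⟩
  unfold pat
  have hne' : (univ.filter fun i' => ∃ v, a i ∈ own W ω B p v ∧ a i' ∈ own W ω B p v).Nonempty := by
    rw [hS]; exact hne
  rw [dif_pos hne']
  congr 1
  congr 1

open Classical in
lemma pat_some {i l : Fin s} (h : pat W ω B p a i = some l) :
    ∃ v, a i ∈ own W ω B p v ∧ ∃ hne : (Tv W ω B p a v).Nonempty,
      l = (Tv W ω B p a v).min' hne := by
  by_cases h1 : (univ.filter fun i' => ∃ v, a i ∈ own W ω B p v ∧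
      a i' ∈ own W ω B p v).Nonempty
  · obtain ⟨i', hi'⟩ := h1
    rw [mem_filter] at hi'
    obtain ⟨_, v, h2, h3⟩ := hi'
    have hne : (Tv W ω B p a v).Nonempty := ⟨i', (mem_Tv W ω B p a v i').mpr h3⟩
    refine ⟨v, h2, hne, ?_⟩
    have h4 := pat_eq_min W ω B p a h2 hne
    rw [h] at h4
    exact Option.some_injective _ h4
  · exfalso
    unfold pat at h
    rw [dif_neg h1] at h
    exact absurd h (by simp)

open Classical in
lemma can_pat : Can (univ.filter fun i => a i ∈ B) (pat W ω B p a) := by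
  intro i l h
  obtain ⟨v, h1, hne, hl⟩ := pat_some W ω B p a h
  have hlT : l ∈ Tv W ω B p a v := by rw [hl]; exact min'_mem _ _
  have hiT : i ∈ Tv W ω B p a v := (mem_Tv W ω B p a v i).mpr h1
  refine ⟨?_, ?_, ?_⟩
  · rw [mem_filter]
    exact ⟨mem_univ _, ((mem_own W ω B p v _).mp h1).1⟩
  · rw [pat_eq_min W ω B p a ((mem_Tv W ω B p a v l).mp hlT) hne, ← hl]
  · rw [hl]; exact min'_le _ _ hiT

open Classical in
lemma blk_min {v : Fin M} (hne : (Tv W ω B p a v).Nonempty) :
    blk (pat W ω B p a) ((Tv W ω B p a v).min' hne) = Tv W ω B p a v := by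
  ext i
  unfold blk
  rw [mem_filter]
  constructor
  · rintro ⟨_, h⟩
    obtain ⟨v', h1, hne', hl⟩ := pat_some W ω B p a h
    have h2 : (Tv W ω B p a v).min' hne ∈ Tv W ω B p a v := min'_mem _ _
    have h3 : (Tv W ω B p a v).min' hne ∈ Tv W ω B p a v' := by rw [hl]; exact min'_mem _ _
    rw [mem_Tv] at h2 h3
    have hvv : v = v' := own_unique W ω B p h2 h3
    rw [mem_Tv, hvv]
    exact h1
  · intro h
    exact ⟨mem_univ _, pat_eq_min W ω B p a ((mem_Tv W ω B p a v i).mp h) hne⟩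

open Classical in
lemma blk_leader {l : Fin s} (h : pat W ω B p a l = some l) : ∃ v ∈ p.2,
    blk (pat W ω B p a) l = Tv W ω B p a v ∧ ∃ hne : (Tv W ω B p a v).Nonempty,
      l = (Tv W ω B p a v).min' hne := by
  obtain ⟨v, h1, hne, hl⟩ := pat_some W ω B p a h
  refine ⟨v, ((mem_own W ω B p v _).mp h1).2.1, ?_, hne, hl⟩
  rw [hl]
  exact blk_min W ω B p a hne

open Classical in
lemma sum_blk (f : Finset (Fin s) → ℝ) (hf : f ∅ = 0) :
    ∑ l, f (blk (pat W ω B p a) l) = ∑ v ∈ p.2, f (Tv W ω B p a v) := by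
  have h1 : ∑ l, f (blk (pat W ω B p a) l) =
      ∑ l ∈ univ.filter (fun l => pat W ω B p a l = some l), f (blk (pat W ω B p a) l) := by
    symm
    apply sum_subset (filter_subset _ _)
    intro l _ hl
    have : blk (pat W ω B p a) l = ∅ := by
      rw [eq_empty_iff_forall_notMem]
      intro i hi
      unfold blk at hi
      rw [mem_filter] at hi
      have := (can_pat W ω B p a i l hi.2).2.1
      exact hl (mem_filter.mpr ⟨mem_univ _, this⟩)
    rw [this, hf]
  have h2 : ∑ v ∈ p.2, f (Tv W ω B p a v) =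
      ∑ v ∈ p.2.filter (fun v => (Tv W ω B p a v).Nonempty), f (Tv W ω B p a v) := by
    symm
    apply sum_subset (filter_subset _ _)
    intro v hv hv'
    have : Tv W ω B p a v = ∅ := by
      rw [← not_nonempty_iff_eq_empty]
      intro hne
      exact hv' (mem_filter.mpr ⟨hv, hne⟩)
    rw [this, hf]
  rw [h1, h2]
  symm
  refine sum_bij (fun v hv => (Tv W ω B p a v).min' (mem_filter.mp hv).2) ?_ ?_ ?_ ?_
  · intro v hv
    have hne := (mem_filter.mp hv).2
    have h3 : (Tv W ω B p a v).min' hne ∈ Tv W ω B p a v := min'_mem _ _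
    exact mem_filter.mpr ⟨mem_univ _, pat_eq_min W ω B p a ((mem_Tv W ω B p a v _).mp h3) hne⟩
  · intro v hv v' hv' heq
    have h3 : (Tv W ω B p a v).min' (mem_filter.mp hv).2 ∈ Tv W ω B p a v := min'_mem _ _
    have h4 : (Tv W ω B p a v').min' (mem_filter.mp hv').2 ∈ Tv W ω B p a v' := min'_mem _ _
    rw [← heq] at h4
    rw [mem_Tv] at h3 h4
    exact own_unique W ω B p h3 h4
  · intro l hl
    obtain ⟨v, hv, _, hne, h3⟩ := blk_leader W ω B p a (mem_filter.mp hl).2
    exact ⟨v, mem_filter.mpr ⟨hv, hne⟩, h3.symm⟩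
  · intro v hv
    rw [blk_min]

open Classical in
lemma nb_eq : nb (pat W ω B p a) = (p.2.filter fun v => ∃ i, a i ∈ own W ω B p v).card := by
  have hF : (p.2.filter fun v => ∃ i, a i ∈ own W ω B p v) =
      p.2.filter (fun v => (Tv W ω B p a v).Nonempty) := by
    apply filter_congr
    intro v _
    constructor
    · rintro ⟨i, hi⟩
      exact ⟨i, (mem_Tv W ω B p a v i).mpr hi⟩
    · rintro ⟨i, hi⟩
      exact ⟨i, (mem_Tv W ω B p a v i).mp hi⟩
  rw [hF]
  unfold nb
  symm
  refine card_bij (fun v hv => (Tv W ω B p a v).min' (mem_filter.mp hv).2) ?_ ?_ ?_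
  · intro v hv
    have hne := (mem_filter.mp hv).2
    have h3 : (Tv W ω B p a v).min' hne ∈ Tv W ω B p a v := min'_mem _ _
    exact mem_filter.mpr ⟨mem_univ _, pat_eq_min W ω B p a ((mem_Tv W ω B p a v _).mp h3) hne⟩
  · intro v hv v' hv' heq
    have h3 : (Tv W ω B p a v).min' (mem_filter.mp hv).2 ∈ Tv W ω B p a v := min'_mem _ _
    have h4 : (Tv W ω B p a v').min' (mem_filter.mp hv').2 ∈ Tv W ω B p a v' := min'_mem _ _
    rw [← heq] at h4
    rw [mem_Tv] at h3 h4
    exact own_unique W ω B p h3 h4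
  · intro l hl
    obtain ⟨v, hv, _, hne, h3⟩ := blk_leader W ω B p a (mem_filter.mp hl).2
    exact ⟨v, mem_filter.mpr ⟨hv, hne⟩, h3.symm⟩

open Classical in
lemma biUnion_own : p.2.biUnion (own W ω B p) =
    B.filter fun l => ∃ v ∈ p.2, p.1 - ω v ∈ W l := by
  ext l
  rw [mem_biUnion, mem_filter]
  constructor
  · rintro ⟨v, hv, hl⟩
    rw [mem_own] at hl
    exact ⟨hl.1, v, hv, hl.2.2.1⟩
  · rintro ⟨hB, v, hv, hl⟩
    have hne : (p.2.filter fun v => p.1 - ω v ∈ W l).Nonempty := ⟨v, mem_filter.mpr ⟨hv, hl⟩⟩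
    have hm := min'_mem _ hne
    rw [mem_filter] at hm
    refine ⟨(p.2.filter fun v => p.1 - ω v ∈ W l).min' hne, hm.1, ?_⟩
    rw [mem_own]
    refine ⟨hB, hm.1, hm.2, ?_⟩
    intro v' hv' hlt hmem
    exact absurd (min'_le _ v' (mem_filter.mpr ⟨hv', hmem⟩)) (not_le.mpr hlt)

open Classical in
lemma own_sub_TB (v : Fin M) : own W ω B p v ⊆ TB W B (p.1 - ω v) := by
  intro l hl
  have h := (mem_own W ω B p v l).mp hl
  unfold TB
  exact mem_filter.mpr ⟨h.1, h.2.2.1⟩

end

theorem goalPAT : G_PAT := by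
  intro G _ _ Λ _ M s W ω B p a
  refine ⟨?_, ?_, ?_, ?_, ?_, ?_, ?_⟩
  · intro v
    constructor
    · intro l hl
      exact ((mem_own W ω B p v l).mp hl).1
    · exact own_sub_TB W ω B p v
  · intro v v' hne
    rw [disjoint_left]
    intro l h h'
    exact hne (own_unique W ω B p h h')
  · convert biUnion_own W ω B p
  · convert can_pat W ω B p a
  · intro l hl
    obtain ⟨v, hv, h1, _⟩ := blk_leader W ω B p a hl
    refine ⟨v, hv, ?_⟩
    rw [h1]
    unfold Tv
    congr
  · intro f hf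
    rw [sum_blk W ω B p a f hf]
    refine sum_congr rfl fun v _ => ?_
    congr 1
  · convert nb_eq W ω B p a

end Pool.Agent.Helper55.MCP
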